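import Pool.Agent.Q32.SK.Fin

/-!
# MP_0dd7b8_al: a sharply 4-transitive action on the random 4-tournament superposed with `H₃`

The free superposition `M` of the random 4-tournament and the triangle-free random graph has a
structurally sharply 4-transitive action by automorphisms.

The group is a limit of groups obtained by adding new free orbits of points (equivariant
extensions) and generic permutations which map one 4-tuple to another one of the same type.
-/

set_option autoImplicit false

namespace Pool.Agent.Results.MP_0dd7b8_al.SharplyFourTransitive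

open Function

/-- `R` is a 4-tournament on `M`: it holds of tuples of distinct points only, and the automorphisms
of each substructure with 4 elements `a 0, a 1, a 2, a 3` are exactly its even permutations. -/
def IsFourTournament {M : Type} (R : (Fin 4 → M) → Prop) : Prop :=
  (∀ a, R a → Injective a) ∧ ∀ a : Fin 4 → M, Injective a → ∀ π : Equiv.Perm (Fin 4),
    (∀ v : Fin 4 → Fin 4, R (fun i => a (v i)) ↔ R (fun i => a (π (v i)))) ↔
      π ∈ alternatingGroup (Fin 4)

/-- `E` is a triangle-free simple graph on `M`. -/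
def IsTriangleFreeGraph {M : Type} (E : M → M → Prop) : Prop :=
  (∀ x, ¬ E x x) ∧ (∀ x y, E x y → E y x) ∧ ∀ x y z, ¬ (E x y ∧ E y z ∧ E x z)

/-- `(M, R, E)` is the free superposition of the random 4-tournament and the triangle-free random
graph: the Fraïssé limit of the finite structures which are a 4-tournament with a triangle-free
graph. -/
structure IsSuperposition (M : Type) (R : (Fin 4 → M) → Prop) (E : M → M → Prop) : Prop where
  countable : Countable M
  infinite : Infinite M
  tournament : IsFourTournament R
  graph : IsTriangleFreeGraph E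
  universal : ∀ (n : ℕ) (R₀ : (Fin 4 → Fin n) → Prop) (E₀ : Fin n → Fin n → Prop),
    IsFourTournament R₀ → IsTriangleFreeGraph E₀ →
    ∃ f : Fin n → M, Injective f ∧ (∀ a, R₀ a ↔ R (fun i => f (a i))) ∧
      ∀ x y, E₀ x y ↔ E (f x) (f y)
  homogeneous : ∀ A : Set M, A.Finite → ∀ f : A → M, Injective f →
    (∀ a : Fin 4 → A, R (fun i => (a i : M)) ↔ R (fun i => f (a i))) →
    (∀ x y : A, E x y ↔ E (f x) (f y)) →
    ∃ σ : Equiv.Perm M, (∀ a, R (fun i => σ (a i)) ↔ R a) ∧ (∀ x y, E (σ x) (σ y) ↔ E x y) ∧
      ∀ x : A, σ x = f x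

/-- the map `a i ↦ b i` is an isomorphism of the induced substructures -/
def SameType {M : Type} (R : (Fin 4 → M) → Prop) (E : M → M → Prop) (a b : Fin 4 → M) : Prop :=
  (∀ v : Fin 4 → Fin 4, R (fun i => a (v i)) ↔ R (fun i => b (v i))) ∧
    ∀ i j, E (a i) (a j) ↔ E (b i) (b j)

theorem isT4_iff {M : Type} (R : (Fin 4 → M) → Prop) : IsFourTournament R ↔ Q32.SK.IsT4 R := by
  constructor
  · rintro ⟨h1, h2⟩
    refine ⟨h1, fun a ha π => ?_⟩
    have hev : ∀ σ τ : Equiv.Perm (Fin 4), Equiv.Perm.sign σ = Equiv.Perm.sign τ →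
        (R (fun i => a (σ i)) ↔ R (fun i => a (τ i))) := by
      intro σ τ hst
      have h3 : τ * σ⁻¹ ∈ alternatingGroup (Fin 4) := by
        rw [Equiv.Perm.mem_alternatingGroup, map_mul, map_inv, hst, mul_inv_cancel]
      have h4 := (h2 a ha (τ * σ⁻¹)).2 h3 σ
      simpa using h4
    rcases Int.units_eq_one_or (Equiv.Perm.sign π) with hs | hs
    · have h3 := hev π 1 (by rw [hs]; simp)
      simp only [Equiv.Perm.coe_one, id_eq] at h3
      simp [hs, h3]
    · have h5 : ¬ (R (fun i => a (π i)) ↔ R a) := by
        intro h6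
        have h7 : ∀ σ : Equiv.Perm (Fin 4), (R (fun i => a (σ i)) ↔ R a) := by
          intro σ
          rcases Int.units_eq_one_or (Equiv.Perm.sign σ) with ht | ht
          · have h3 := hev σ 1 (by rw [ht]; simp)
            simpa using h3
          · exact (hev σ π (by rw [ht, hs])).trans h6
        have h8 : π ∈ alternatingGroup (Fin 4) := by
          refine (h2 a ha π).1 (fun v => ?_)
          by_cases hv : Injective v
          · obtain ⟨σ, rfl⟩ : ∃ σ : Equiv.Perm (Fin 4), v = σ :=
              ⟨Equiv.ofBijective v (Finite.injective_iff_bijective.1 hv), rfl⟩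
            exact (h7 σ).trans (h7 (π * σ)).symm
          · constructor
            · intro h9
              exact absurd (fun i j hij => h1 _ h9 (congrArg a hij)) hv
            · intro h9
              exact absurd (fun i j hij => h1 _ h9 (congrArg (fun x => a (π x)) hij)) hv
        rw [Equiv.Perm.mem_alternatingGroup, hs] at h8
        exact absurd h8 (by decide)
      have hne : ¬ ((-1 : ℤˣ) = 1) := by decide
      rw [hs]
      tauto
  · rintro ⟨h1, h2⟩
    refine ⟨h1, fun a ha π => ?_⟩
    rw [Equiv.Perm.mem_alternatingGroup]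
    constructor
    · intro h
      have h3 := h2 a ha π
      have h4 := h id
      by_contra hne
      simp only [id_eq] at h4
      tauto
    · intro hs v
      by_cases hv : Injective v
      · obtain ⟨σ, rfl⟩ : ∃ σ : Equiv.Perm (Fin 4), v = σ :=
          ⟨Equiv.ofBijective v (Finite.injective_iff_bijective.1 hv), rfl⟩
        have h3 := h2 a ha σ
        have h4 := h2 a ha (π * σ)
        rw [map_mul, hs, one_mul] at h4
        exact h3.trans h4.symm
      · constructor
        · intro h9
          exact absurd (fun i j hij => h1 _ h9 (congrArg a hij)) hv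
        · intro h9
          exact absurd (fun i j hij => h1 _ h9 (congrArg (fun x => a (π x)) hij)) hv

theorem isLim_iff {M : Type} (R : (Fin 4 → M) → Prop) (E : M → M → Prop) :
    IsSuperposition M R E ↔ Q32.SK.IsLim M R E := by
  constructor
  · intro h
    exact ⟨h.countable, h.infinite, (isT4_iff R).1 h.tournament, h.graph,
      fun n R₀ E₀ h1 h2 => h.universal n R₀ E₀ ((isT4_iff R₀).2 h1) h2, h.homogeneous⟩
  · intro h
    exact ⟨h.cnt, h.inf, (isT4_iff R).2 h.t4, h.tf,
      fun n R₀ E₀ h1 h2 => h.univ n R₀ E₀ ((isT4_iff R₀).1 h1) h2, h.homog⟩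

theorem result :
    (∃ (M : Type) (R : (Fin 4 → M) → Prop) (E : M → M → Prop), IsSuperposition M R E) ∧
    ∀ (M : Type) (R : (Fin 4 → M) → Prop) (E : M → M → Prop), IsSuperposition M R E →
      ∃ (G : Type) (_ : Group G) (_ : MulAction G M),
        (∀ (g : G) (a : Fin 4 → M), R (fun i => g • a i) ↔ R a) ∧
        (∀ (g : G) (x y : M), E (g • x) (g • y) ↔ E x y) ∧
        ∀ a b : Fin 4 → M, Injective a → Injective b → SameType R E a b →
          ∃! g : G, ∀ i, g • a i = b i := by
  obtain ⟨h1, h2⟩ := Q32.SK.finB
  constructor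
  · obtain ⟨M, R, E, h⟩ := h1
    exact ⟨M, R, E, (isLim_iff R E).2 h⟩
  · intro M R E h
    obtain ⟨G, i1, i2, h3, h4, h5⟩ := h2 M R E ((isLim_iff R E).1 h)
    exact ⟨G, i1, i2, h3, h4, fun a b ha hb hab => h5 a b ha hb (hab.1 id) hab.2⟩

end Pool.Agent.Results.MP_0dd7b8_al.SharplyFourTransitive
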